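import Mathlib
import Pool.Agent.Lib.MP_75c11f_co.Defs
import Pool.Agent.Lib.MP_75c11f_co.Sh.Pos

namespace Pool.Agent.Results.MP_75c11f_co.Supersaturation

open Pool.Agent.Lib.MP_75c11f_co

/-- Supersaturation of comparable pairs in `L(k,k)`, with the exact range of the constant. -/
theorem result : (∃ c₁ c₂ : ℝ, 0 < c₁ ∧ 0 < c₂ ∧ ∃ k₀ : ℕ, ∀ k : ℕ, k₀ ≤ k →
    ∀ U : Finset (L k),
      c₁ * (k : ℝ) ^ (-(3 / 2 : ℝ)) * ((2 * k).choose k : ℝ) ≤ (U.card : ℝ) →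
      c₂ * (k : ℝ) ^ 2 * (U.card : ℝ) ≤
        (((G k).induce (U : Set (L k))).edgeSet.ncard : ℝ)) ∧
    ∀ c₁ : ℝ, (∃ c₂ : ℝ, 0 < c₂ ∧ ∃ k₀ : ℕ, ∀ k : ℕ, k₀ ≤ k →
      ∀ U : Finset (L k),
        c₁ * (k : ℝ) ^ (-(3 / 2 : ℝ)) * ((2 * k).choose k : ℝ) ≤ (U.card : ℝ) →
        c₂ * (k : ℝ) ^ 2 * (U.card : ℝ) ≤
          (((G k).induce (U : Set (L k))).edgeSet.ncard : ℝ)) ↔
      2 * Real.sqrt (3 / Real.pi) < c₁ :=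
  ⟨supersaturation, Sh.sharp⟩

end Pool.Agent.Results.MP_75c11f_co.Supersaturation
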